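import Mathlib

/-!
Many tuples of pairwise coprime integers with sum zero in a box (helper867).
-/

set_option autoImplicit false

namespace Pool.Agent.TH867.NA

open Finset

theorem res_card (A p Q c : ℕ) (hp : p.Prime) (hQ : ¬ p ∣ Q) :
    ((range A).filter fun a => p ∣ c + Q * a).card ≤ A / p + 1 := by
  have h : ((range A).filter fun a => p ∣ c + Q * a).card ≤ (range (A / p + 1)).card := by
    refine card_le_card_of_injOn (fun a => a / p) ?_ ?_
    · intro a ha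
      obtain ⟨h1, -⟩ := mem_filter.1 ha
      rw [mem_coe, mem_range]
      exact Nat.lt_succ_of_le (Nat.div_le_div_right (mem_range.1 h1).le)
    · intro a ha b hb hab
      obtain ⟨-, h1⟩ := mem_filter.1 ha
      obtain ⟨-, h2⟩ := mem_filter.1 hb
      have h3 : c + Q * a ≡ c + Q * b [MOD p] :=
        ((Nat.modEq_zero_iff_dvd.2 h1).trans (Nat.modEq_zero_iff_dvd.2 h2).symm)
      have h4 : Q * a ≡ Q * b [MOD p] := Nat.ModEq.add_left_cancel' c h3
      have h5 : a ≡ b [MOD p] :=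
        Nat.ModEq.cancel_left_of_coprime ((Nat.Prime.coprime_iff_not_dvd hp).2 hQ) h4
      simp only at hab
      rw [← Nat.div_add_mod a p, ← Nat.div_add_mod b p, hab]
      rw [h5]
  rwa [card_range] at h

/-- two conditions on the coordinates -/
theorem fib2 {m A k : ℕ} (i j : Fin m) (hij : i ≠ j) (F : Finset (Fin m → ℕ))
    (hF : F ⊆ Fintype.piFinset fun _ => range A) (S : Finset ℕ) (hS : S.card ≤ k)
    (h1 : ∀ a ∈ F, a i ∈ S)
    (h2 : ∀ b : Fin m → ℕ, ∃ T : Finset ℕ, T.card ≤ k ∧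
      ∀ a ∈ F, Function.update a j 0 = b → a j ∈ T) :
    F.card ≤ k * (k * A ^ (m - 2)) := by
  classical
  have e1 : F.card ≤ k * (F.image fun a => Function.update a j 0).card := by
    refine card_le_mul_card_image F k fun b _ => ?_
    obtain ⟨T, hT, hTF⟩ := h2 b
    refine le_trans ?_ hT
    refine card_le_card_of_injOn (fun a => a j) ?_ ?_
    · intro a ha
      obtain ⟨g1, g2⟩ := mem_filter.1 ha
      exact hTF a g1 g2
    · intro a ha a' ha' haa
      obtain ⟨-, g2⟩ := mem_filter.1 ha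
      obtain ⟨-, g4⟩ := mem_filter.1 ha'
      simp only at haa
      funext l
      by_cases hl : l = j
      · rw [hl]; exact haa
      · have := congrFun (g2.trans g4.symm) l
        rwa [Function.update_of_ne hl, Function.update_of_ne hl] at this
  refine e1.trans (Nat.mul_le_mul_left _ ?_)
  have e2 : (F.image fun a => Function.update a j 0) ⊆ Fintype.piFinset fun l =>
      if l = j then {0} else if l = i then S else range A := by
    intro b hb
    obtain ⟨a, ha, rfl⟩ := mem_image.1 hb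
    rw [Fintype.mem_piFinset]
    intro l
    by_cases hl : l = j
    · rw [if_pos hl, hl, Function.update_self, mem_singleton]
    · rw [if_neg hl, Function.update_of_ne hl]
      by_cases hli : l = i
      · rw [if_pos hli, hli]; exact h1 a ha
      · rw [if_neg hli]
        exact Fintype.mem_piFinset.1 (hF ha) l
  refine (card_le_card e2).trans ?_
  rw [Fintype.card_piFinset, ← mul_prod_erase _ _ (mem_univ j),
    ← mul_prod_erase _ _ (mem_erase.2 ⟨hij, mem_univ i⟩), if_pos rfl, if_neg hij, if_pos rfl,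
    card_singleton, one_mul]
  refine Nat.mul_le_mul hS ?_
  have e3 : ∏ l ∈ (univ.erase j).erase i, (if l = j then ({0} : Finset ℕ) else if l = i then S
      else range A).card = ∏ _l ∈ (univ.erase j).erase i, A := by
    refine prod_congr rfl fun l hl => ?_
    obtain ⟨g1, g2⟩ := mem_erase.1 hl
    rw [if_neg (mem_erase.1 g2).1, if_neg g1, card_range]
  rw [e3, prod_const, card_erase_of_mem (mem_erase.2 ⟨hij, mem_univ i⟩),
    card_erase_of_mem (mem_univ j), card_univ, Fintype.card_fin]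
  rfl

/-- the sets of bad parameters -/
def B1 (m A Q p : ℕ) (i j : Fin m) : Finset (Fin m → ℕ) :=
  (Fintype.piFinset fun _ : Fin m => range A).filter fun a => p ∣ 1 + Q * a i ∧ p ∣ 1 + Q * a j

/-- the sets of bad parameters -/
def B2 (m A Q p : ℕ) (i : Fin m) : Finset (Fin m → ℕ) :=
  (Fintype.piFinset fun _ : Fin m => range A).filter fun a =>
    p ∣ 1 + Q * a i ∧ p ∣ ∑ l, (1 + Q * a l)

theorem B1_card {m A Q p : ℕ} (hp : p.Prime) (hQ : ¬ p ∣ Q) (i j : Fin m) (hij : i ≠ j) :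
    (B1 m A Q p i j).card ≤ (A / p + 1) * ((A / p + 1) * A ^ (m - 2)) := by
  refine fib2 i j hij _ (filter_subset _ _) ((range A).filter fun a => p ∣ 1 + Q * a)
    (res_card A p Q 1 hp hQ) ?_ ?_
  · intro a ha
    obtain ⟨h1, h2, -⟩ := mem_filter.1 ha
    exact mem_filter.2 ⟨Fintype.mem_piFinset.1 h1 i, h2⟩
  · intro b
    refine ⟨(range A).filter fun a => p ∣ 1 + Q * a, res_card A p Q 1 hp hQ, fun a ha _ => ?_⟩
    obtain ⟨h1, -, h2⟩ := mem_filter.1 ha
    exact mem_filter.2 ⟨Fintype.mem_piFinset.1 h1 j, h2⟩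

theorem B2_card {m A Q p : ℕ} (hp : p.Prime) (hQ : ¬ p ∣ Q) (i j : Fin m) (hij : i ≠ j) :
    (B2 m A Q p i).card ≤ (A / p + 1) * ((A / p + 1) * A ^ (m - 2)) := by
  classical
  refine fib2 i j hij _ (filter_subset _ _) ((range A).filter fun a => p ∣ 1 + Q * a)
    (res_card A p Q 1 hp hQ) ?_ ?_
  · intro a ha
    obtain ⟨h1, h2, -⟩ := mem_filter.1 ha
    exact mem_filter.2 ⟨Fintype.mem_piFinset.1 h1 i, h2⟩
  · intro b
    refine ⟨(range A).filter fun t => p ∣ (1 + ∑ l ∈ univ.erase j, (1 + Q * b l)) + Q * t,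
      res_card A p Q _ hp hQ, fun a ha hab => ?_⟩
    obtain ⟨h1, -, h2⟩ := mem_filter.1 ha
    refine mem_filter.2 ⟨Fintype.mem_piFinset.1 h1 j, ?_⟩
    have e1 : ∑ l, (1 + Q * a l) = (1 + ∑ l ∈ univ.erase j, (1 + Q * b l)) + Q * a j := by
      rw [← add_sum_erase _ _ (mem_univ j)]
      have : ∑ l ∈ univ.erase j, (1 + Q * a l) = ∑ l ∈ univ.erase j, (1 + Q * b l) := by
        refine sum_congr rfl fun l hl => ?_
        rw [← hab, Function.update_of_ne (mem_erase.1 hl).1]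
      rw [this]
      ring
    rw [← e1]
    exact h2

theorem sum_primes_le {P M A : ℕ} (hP : 1 ≤ P) (S : Finset ℕ) (hS : S ⊆ Ioc P M) :
    ∑ p ∈ S, (((A / p : ℕ) : ℝ) + 1) ^ 2 ≤ 2 * (A : ℝ) ^ 2 / P + 2 * M := by
  have h1 : ∑ p ∈ S, (((A / p : ℕ) : ℝ) + 1) ^ 2 ≤
      ∑ p ∈ S, (2 * (A : ℝ) ^ 2 * ((p : ℝ) ^ 2)⁻¹ + 2) := by
    refine sum_le_sum fun p hp => ?_
    have hp0 : (0 : ℝ) < p := by
      have := (mem_Ioc.1 (hS hp)).1
      exact_mod_cast (by omega : 0 < p)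
    have h2 : ((A / p : ℕ) : ℝ) ≤ (A : ℝ) / p := Nat.cast_div_le
    have h3 : (0 : ℝ) ≤ ((A / p : ℕ) : ℝ) := Nat.cast_nonneg _
    have h4 : (((A / p : ℕ) : ℝ) + 1) ^ 2 ≤ 2 * ((A : ℝ) / p) ^ 2 + 2 := by
      have h5 : (((A / p : ℕ) : ℝ)) ^ 2 ≤ ((A : ℝ) / p) ^ 2 := pow_le_pow_left₀ h3 h2 2
      nlinarith [sq_nonneg (((A / p : ℕ) : ℝ) - 1)]
    refine h4.trans (le_of_eq ?_)
    rw [div_pow]
    ring
  refine h1.trans ?_
  rw [sum_add_distrib, ← mul_sum, sum_const, nsmul_eq_mul]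
  have hP0 : (0 : ℝ) < P := by exact_mod_cast hP
  have h2 : ∑ p ∈ S, ((p : ℝ) ^ 2)⁻¹ ≤ 1 / P := by
    rcases le_or_gt P M with hPM | hPM
    · refine (sum_le_sum_of_subset_of_nonneg hS fun p _ _ => by positivity).trans ?_
      have h3 := sum_Ioc_inv_sq_le_sub (α := ℝ) (k := P) (n := M) (by omega) hPM
      refine h3.trans ?_
      rw [one_div]
      have : (0 : ℝ) ≤ (M : ℝ)⁻¹ := by positivity
      linarith
    · have : S = ∅ := by
        rw [← subset_empty]
        refine hS.trans ?_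
        rw [Ioc_eq_empty (by omega)]
      rw [this, sum_empty]
      positivity
  have h3 : (S.card : ℝ) ≤ M := by
    have : S.card ≤ M := by
      refine (card_le_card hS).trans ?_
      rw [Nat.card_Ioc]
      omega
    exact_mod_cast this
  have h4 : 2 * (A : ℝ) ^ 2 * ∑ p ∈ S, ((p : ℝ) ^ 2)⁻¹ ≤ 2 * (A : ℝ) ^ 2 * (1 / P) :=
    mul_le_mul_of_nonneg_left h2 (by positivity)
  have h5 : 2 * (A : ℝ) ^ 2 * (1 / P) = 2 * (A : ℝ) ^ 2 / P := by ring
  linarith

/-- the tuple of a parameter -/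
def xx {m : ℕ} (Q : ℕ) (a : Fin m → ℕ) : Fin (m + 1) → ℤ :=
  Fin.cons (-((∑ l, (1 + Q * a l) : ℕ) : ℤ)) fun l => ((1 + Q * a l : ℕ) : ℤ)

theorem xx_zero {m : ℕ} (Q : ℕ) (a : Fin m → ℕ) : xx Q a 0 = -((∑ l, (1 + Q * a l) : ℕ) : ℤ) := rfl

theorem xx_succ {m : ℕ} (Q : ℕ) (a : Fin m → ℕ) (l : Fin m) :
    xx Q a l.succ = ((1 + Q * a l : ℕ) : ℤ) := rfl

/-- **at least half of the parameters are good** -/
theorem many {m : ℕ} (hm : 2 ≤ m) {Q A : ℕ} (hQ : Q = (16 * m ^ 2).factorial)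
    (hA : 16 * m ^ 2 * Q ≤ A) :
    ∃ G : Finset (Fin m → ℕ), (∀ a ∈ G, (∀ l, a l < A) ∧
      ∀ i j : Fin (m + 1), i ≠ j → IsCoprime (xx Q a i) (xx Q a j)) ∧
      (A : ℝ) ^ m / 2 ≤ G.card := by
  classical
  obtain ⟨P, hP⟩ : ∃ P, P = 16 * m ^ 2 := ⟨_, rfl⟩
  rw [← hP] at hQ hA
  have hP1 : 1 ≤ P := by rw [hP]; nlinarith
  have hQ1 : 1 ≤ Q := by rw [hQ]; exact Nat.factorial_pos _
  obtain ⟨S, hS⟩ : ∃ S : Finset ℕ, S = (Ioc P (Q * A)).filter Nat.Prime := ⟨_, rfl⟩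
  have hSQ : ∀ p ∈ S, p.Prime ∧ ¬ p ∣ Q := by
    intro p hp
    rw [hS, mem_filter, mem_Ioc] at hp
    refine ⟨hp.2, fun h => ?_⟩
    rw [hQ, hp.2.dvd_factorial] at h
    omega
  obtain ⟨U, hU⟩ : ∃ U : Finset (Fin m → ℕ), U = Fintype.piFinset fun _ : Fin m => range A :=
    ⟨_, rfl⟩
  obtain ⟨Bad, hBad⟩ : ∃ Bad : Finset (Fin m → ℕ), Bad =
      S.biUnion fun p => ((univ : Finset (Fin m × Fin m)).filter fun s => s.1 ≠ s.2).biUnion
        fun s => B1 m A Q p s.1 s.2 ∪ B2 m A Q p s.1 := ⟨_, rfl⟩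
  have hBc : (Bad.card : ℝ) ≤ (A : ℝ) ^ m / 2 := by
    have h1 : Bad.card ≤ ∑ p ∈ S, ∑ s ∈ (univ : Finset (Fin m × Fin m)).filter (fun s => s.1 ≠ s.2),
        2 * ((A / p + 1) * ((A / p + 1) * A ^ (m - 2))) := by
      rw [hBad]
      refine card_biUnion_le.trans (sum_le_sum fun p hp => ?_)
      refine card_biUnion_le.trans (sum_le_sum fun s hs => ?_)
      obtain ⟨g1, g2⟩ := hSQ p hp
      have g3 := (mem_filter.1 hs).2
      refine (card_union_le _ _).trans ?_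
      have := B1_card (A := A) g1 g2 s.1 s.2 g3
      have := B2_card (A := A) g1 g2 s.1 s.2 g3
      omega
    have h2 : ((univ : Finset (Fin m × Fin m)).filter (fun s => s.1 ≠ s.2)).card ≤ m ^ 2 := by
      refine (card_filter_le _ _).trans ?_
      rw [card_univ, Fintype.card_prod, Fintype.card_fin, sq]
    have h3 : Bad.card ≤ ∑ p ∈ S, m ^ 2 * (2 * ((A / p + 1) * ((A / p + 1) * A ^ (m - 2)))) := by
      refine h1.trans (sum_le_sum fun p _ => ?_)
      rw [sum_const, smul_eq_mul]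
      exact Nat.mul_le_mul_right _ h2
    have h4 : (Bad.card : ℝ) ≤ 2 * (m : ℝ) ^ 2 * (A : ℝ) ^ (m - 2) *
        ∑ p ∈ S, (((A / p : ℕ) : ℝ) + 1) ^ 2 := by
      rw [mul_sum]
      have : (Bad.card : ℝ) ≤ ∑ p ∈ S, ((m ^ 2 * (2 * ((A / p + 1) * ((A / p + 1) *
          A ^ (m - 2)))) : ℕ) : ℝ) := by exact_mod_cast h3
      refine this.trans (le_of_eq (sum_congr rfl fun p _ => ?_))
      push_cast
      ring
    have h5 := sum_primes_le (A := A) hP1 S (by rw [hS]; exact filter_subset _ _)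
    have hm0 : (0 : ℝ) < m := by exact_mod_cast (by omega : 0 < m)
    have hPr : (P : ℝ) = 16 * (m : ℝ) ^ 2 := by rw [hP]; push_cast; ring
    have hAr : 16 * (m : ℝ) ^ 2 * Q ≤ A := by
      have : ((P * Q : ℕ) : ℝ) ≤ A := by exact_mod_cast hA
      push_cast at this
      rw [hPr] at this
      exact this
    have hA2 : (A : ℝ) ^ m = (A : ℝ) ^ (m - 2) * (A : ℝ) ^ 2 := by
      rw [← pow_add]
      congr 1
      omega
    have h6 : 2 * (A : ℝ) ^ 2 / P + 2 * ((Q * A : ℕ) : ℝ) ≤ (A : ℝ) ^ 2 / (4 * (m : ℝ) ^ 2) := by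
      rw [hPr]
      push_cast
      have e1 : 2 * (A : ℝ) ^ 2 / (16 * (m : ℝ) ^ 2) = (A : ℝ) ^ 2 / (8 * (m : ℝ) ^ 2) := by
        rw [div_eq_div_iff (by positivity) (by positivity)]
        ring
      have e2 : 2 * ((Q : ℝ) * A) ≤ (A : ℝ) ^ 2 / (8 * (m : ℝ) ^ 2) := by
        rw [le_div_iff₀ (by positivity)]
        have : (0 : ℝ) ≤ A := Nat.cast_nonneg _
        nlinarith
      have e3 : (A : ℝ) ^ 2 / (8 * (m : ℝ) ^ 2) + (A : ℝ) ^ 2 / (8 * (m : ℝ) ^ 2) =
          (A : ℝ) ^ 2 / (4 * (m : ℝ) ^ 2) := by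
        field_simp
        ring
      linarith
    calc (Bad.card : ℝ) ≤ 2 * (m : ℝ) ^ 2 * (A : ℝ) ^ (m - 2) *
          ∑ p ∈ S, (((A / p : ℕ) : ℝ) + 1) ^ 2 := h4
      _ ≤ 2 * (m : ℝ) ^ 2 * (A : ℝ) ^ (m - 2) * ((A : ℝ) ^ 2 / (4 * (m : ℝ) ^ 2)) :=
          mul_le_mul_of_nonneg_left (h5.trans h6) (by positivity)
      _ = (A : ℝ) ^ m / 2 := by
          rw [hA2]
          field_simp
          ring
  refine ⟨U \ Bad, ?_, ?_⟩
  · intro a ha
    obtain ⟨haU, haB⟩ := mem_sdiff.1 ha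
    rw [hU, Fintype.mem_piFinset] at haU
    have hlt : ∀ l, a l < A := fun l => mem_range.1 (haU l)
    have haU' : a ∈ Fintype.piFinset fun _ : Fin m => range A := Fintype.mem_piFinset.2 haU
    refine ⟨hlt, ?_⟩
    have hpS : ∀ (p : ℕ) (l : Fin m), p.Prime → p ∣ 1 + Q * a l → p ∈ S := by
      intro p l hp hpd
      rw [hS, mem_filter, mem_Ioc]
      refine ⟨⟨?_, ?_⟩, hp⟩
      · by_contra hle
        have h1 : p ∣ Q := by
          rw [hQ, hp.dvd_factorial]
          omega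
        have h2 : p ∣ 1 := (Nat.dvd_add_left (h1.mul_right _)).1 hpd
        exact hp.one_lt.ne' (Nat.dvd_one.1 h2)
      · refine (Nat.le_of_dvd (by omega) hpd).trans ?_
        have h3 := hlt l
        calc 1 + Q * a l ≤ Q + Q * a l := Nat.add_le_add_right hQ1 _
          _ = Q * (a l + 1) := by ring
          _ ≤ Q * A := Nat.mul_le_mul_left _ h3
    have key1 : ∀ l l' : Fin m, l ≠ l' → Nat.Coprime (1 + Q * a l) (1 + Q * a l') := by
      intro l l' hll
      by_contra hcon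
      obtain ⟨p, hp, h1, h2⟩ := Nat.Prime.not_coprime_iff_dvd.1 hcon
      apply haB
      rw [hBad, mem_biUnion]
      refine ⟨p, hpS p l hp h1, ?_⟩
      rw [mem_biUnion]
      exact ⟨(l, l'), mem_filter.2 ⟨mem_univ _, hll⟩,
        mem_union_left _ (mem_filter.2 ⟨haU', h1, h2⟩)⟩
    have key2 : ∀ l : Fin m, Nat.Coprime (1 + Q * a l) (∑ l, (1 + Q * a l)) := by
      intro l
      by_contra hcon
      obtain ⟨p, hp, h1, h2⟩ := Nat.Prime.not_coprime_iff_dvd.1 hcon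
      obtain ⟨l', hl'⟩ : ∃ l' : Fin m, l ≠ l' := by
        by_cases hl0 : l = ⟨0, by omega⟩
        · refine ⟨⟨1, by omega⟩, ?_⟩
          rw [hl0]
          intro h
          have := congrArg Fin.val h
          simp at this
        · exact ⟨_, hl0⟩
      apply haB
      rw [hBad, mem_biUnion]
      refine ⟨p, hpS p l hp h1, ?_⟩
      rw [mem_biUnion]
      exact ⟨(l, l'), mem_filter.2 ⟨mem_univ _, hl'⟩,
        mem_union_right _ (mem_filter.2 ⟨haU', h1, h2⟩)⟩
    intro i j hij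
    rcases Fin.eq_zero_or_eq_succ i with hi | ⟨l, hi⟩ <;>
      rcases Fin.eq_zero_or_eq_succ j with hj | ⟨l', hj⟩
    · exact absurd (hi.trans hj.symm) hij
    · rw [hi, hj, xx_zero, xx_succ]
      exact (Nat.isCoprime_iff_coprime.2 (key2 l').symm).neg_left
    · rw [hi, hj, xx_zero, xx_succ]
      exact (Nat.isCoprime_iff_coprime.2 (key2 l)).neg_right
    · rw [hi, hj, xx_succ, xx_succ]
      refine Nat.isCoprime_iff_coprime.2 (key1 l l' ?_)
      rintro rfl
      exact hij (hi.trans hj.symm)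
  · have h1 : (U.card : ℝ) = (A : ℝ) ^ m := by
      rw [hU, Fintype.card_piFinset]
      simp
    have h2 : (U.card : ℝ) ≤ (U \ Bad).card + Bad.card := by
      have : U.card ≤ (U \ Bad).card + Bad.card := by
        have := le_card_sdiff Bad U
        omega
      exact_mod_cast this
    linarith

end Pool.Agent.TH867.NA
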