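import Mathlib
import Pool.Agent.TH867.NA.Low

/-!
Many tuples of pairwise coprime integers with sum zero and small product (helper867).
-/

set_option autoImplicit false

namespace Pool.Agent.TH867.NA

open Finset

theorem xx_inj {m Q : ℕ} (hQ : 1 ≤ Q) : Function.Injective (xx (m := m) Q) := by
  intro a b hab
  funext l
  have h := congrFun hab l.succ
  rw [xx_succ, xx_succ] at h
  have h1 : 1 + Q * a l = 1 + Q * b l := by exact_mod_cast h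
  have h2 : Q * a l = Q * b l := by omega
  exact Nat.eq_of_mul_eq_mul_left hQ h2

theorem xx_sum {m Q : ℕ} (a : Fin m → ℕ) : ∑ i, xx Q a i = 0 := by
  rw [Fin.sum_univ_succ, xx_zero]
  simp only [xx_succ]
  push_cast
  ring

theorem xx_prod {m Q A : ℕ} (hQ : 1 ≤ Q) (a : Fin m → ℕ) (ha : ∀ l, a l < A) :
    ∏ i, (xx Q a i).natAbs ≤ m * (Q * A) ^ (m + 1) := by
  have h1 : ∀ l, 1 + Q * a l ≤ Q * A := by
    intro l
    calc 1 + Q * a l ≤ Q + Q * a l := Nat.add_le_add_right hQ _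
      _ = Q * (a l + 1) := by ring
      _ ≤ Q * A := Nat.mul_le_mul_left _ (ha l)
  rw [Fin.prod_univ_succ, xx_zero]
  simp only [xx_succ]
  rw [Int.natAbs_neg, Int.natAbs_natCast]
  have h2 : ∑ l, (1 + Q * a l) ≤ m * (Q * A) := by
    refine (sum_le_sum fun l _ => h1 l).trans ?_
    rw [sum_const, card_univ, Fintype.card_fin, smul_eq_mul]
  have h3 : ∏ l, ((1 + Q * a l : ℕ) : ℤ).natAbs ≤ (Q * A) ^ m := by
    have : ∏ l : Fin m, ((1 + Q * a l : ℕ) : ℤ).natAbs ≤ ∏ _l : Fin m, (Q * A) :=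
      prod_le_prod' fun l _ => by rw [Int.natAbs_natCast]; exact h1 l
    rwa [prod_const, card_univ, Fintype.card_fin] at this
  calc (∑ l, (1 + Q * a l)) * ∏ l, ((1 + Q * a l : ℕ) : ℤ).natAbs
      ≤ (m * (Q * A)) * (Q * A) ^ m := Nat.mul_le_mul h2 h3
    _ = m * (Q * A) ^ (m + 1) := by ring

/-- **many pairwise coprime tuples with sum zero and product at most `X`** -/
theorem lower {m : ℕ} (hm : 2 ≤ m) : ∃ c : ℝ, 0 < c ∧ ∃ X0 : ℝ, 1 ≤ X0 ∧ ∀ X : ℝ, X0 ≤ X →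
    ∃ G : Finset (Fin (m + 1) → ℤ), (∀ x ∈ G, (∀ i, x i ≠ 0) ∧
      (∀ i j, i ≠ j → IsCoprime (x i) (x j)) ∧ ∑ i, x i = 0 ∧
      ((∏ i, (x i).natAbs : ℕ) : ℝ) ≤ X) ∧
      c * X ^ ((m : ℝ) / (m + 1)) ≤ G.card := by
  classical
  obtain ⟨Q, hQ⟩ : ∃ Q, Q = (16 * m ^ 2).factorial := ⟨_, rfl⟩
  have hQ1 : 1 ≤ Q := by rw [hQ]; exact Nat.factorial_pos _
  have hQr : (1 : ℝ) ≤ Q := by exact_mod_cast hQ1
  have hQ0 : (0 : ℝ) < Q := by linarith
  have hm0 : (0 : ℝ) < m := by exact_mod_cast (by omega : 0 < m)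
  have hm1 : (1 : ℝ) ≤ m := by exact_mod_cast (by omega : 1 ≤ m)
  obtain ⟨K, hK⟩ : ∃ K : ℝ, K = 16 * (m : ℝ) ^ 2 * Q + 1 := ⟨_, rfl⟩
  have hK2 : 2 ≤ K := by
    rw [hK]
    nlinarith [mul_pos hm0 hm0]
  refine ⟨1 / 2 * (1 / (2 * Q)) ^ m * (1 / (m : ℝ)) ^ ((m : ℝ) / (m + 1)), by positivity,
    m * (Q * K) ^ (m + 1), ?_, ?_⟩
  · have h1 : (1 : ℝ) ≤ Q * K := by nlinarith
    have h2 : (1 : ℝ) ≤ (Q * K) ^ (m + 1) := one_le_pow₀ h1
    nlinarith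
  intro X hX
  have hX0 : 0 < X := lt_of_lt_of_le (by positivity) hX
  obtain ⟨Y, hY⟩ : ∃ Y : ℝ, Y = (X / m) ^ (1 / ((m : ℝ) + 1)) := ⟨_, rfl⟩
  have hXm : 0 < X / m := by positivity
  have hY0 : 0 < Y := by rw [hY]; positivity
  have hYp : Y ^ (m + 1) = X / m := by
    rw [hY, ← Real.rpow_natCast, ← Real.rpow_mul hXm.le]
    push_cast
    rw [one_div, inv_mul_cancel₀ (by positivity), Real.rpow_one]
  have hYm : Y ^ m = (X / m) ^ ((m : ℝ) / (m + 1)) := by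
    rw [hY, ← Real.rpow_natCast, ← Real.rpow_mul hXm.le]
    congr 1
    field_simp
  have hYK : Q * K ≤ Y := by
    have h1 : (Q * K) ^ (m + 1) ≤ Y ^ (m + 1) := by
      rw [hYp, le_div_iff₀ hm0]
      linarith
    exact le_of_pow_le_pow_left₀ (by omega) hY0.le h1
  obtain ⟨A, hA⟩ : ∃ A : ℕ, A = ⌊Y / Q⌋₊ := ⟨_, rfl⟩
  have hKY : K ≤ Y / Q := by
    rw [le_div_iff₀ hQ0]
    linarith
  have hA1 : (A : ℝ) ≤ Y / Q := by
    rw [hA]
    exact Nat.floor_le (by positivity)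
  have hA2 : Y / Q - 1 < A := by
    rw [hA]
    exact Nat.sub_one_lt_floor _
  have hAm : 16 * m ^ 2 * Q ≤ A := by
    have h1 : (16 * (m : ℝ) ^ 2 * Q) < A := by
      rw [hK] at hKY
      linarith
    exact_mod_cast h1.le
  obtain ⟨G, hG, hGc⟩ := many hm hQ hAm
  refine ⟨G.image (xx Q), ?_, ?_⟩
  · intro x hx
    obtain ⟨a, ha, rfl⟩ := mem_image.1 hx
    obtain ⟨h1, h2⟩ := hG a ha
    refine ⟨?_, h2, xx_sum a, ?_⟩
    · intro i
      rcases Fin.eq_zero_or_eq_succ i with hi | ⟨l, hi⟩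
      · rw [hi, xx_zero, neg_ne_zero]
        have : 0 < ∑ l, (1 + Q * a l) := by
          refine sum_pos (fun l _ => by omega) ⟨⟨0, by omega⟩, mem_univ _⟩
        exact_mod_cast this.ne'
      · rw [hi, xx_succ]
        exact_mod_cast (by omega : 1 + Q * a l ≠ 0)
    · have h3 : ((∏ i, (xx Q a i).natAbs : ℕ) : ℝ) ≤ m * (Q * A) ^ (m + 1) := by
        exact_mod_cast xx_prod hQ1 a h1
      refine h3.trans ?_
      have h4 : (Q : ℝ) * A ≤ Y := by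
        rw [le_div_iff₀ hQ0] at hA1
        linarith
      have h5 : ((Q : ℝ) * A) ^ (m + 1) ≤ Y ^ (m + 1) := pow_le_pow_left₀ (by positivity) h4 _
      rw [hYp] at h5
      calc (m : ℝ) * (Q * A) ^ (m + 1) ≤ m * (X / m) := mul_le_mul_of_nonneg_left h5 hm0.le
        _ = X := by field_simp
  · rw [card_image_of_injective _ (xx_inj hQ1)]
    refine le_trans ?_ hGc
    have h1 : 1 / (2 * Q) * Y ≤ A := by
      have : 1 / (2 * Q) * Y = (Y / Q) / 2 := by ring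
      rw [this]
      linarith
    have h2 : (1 / (2 * (Q : ℝ)) * Y) ^ m ≤ (A : ℝ) ^ m := pow_le_pow_left₀ (by positivity) h1 _
    have h3 : X ^ ((m : ℝ) / (m + 1)) * (1 / (m : ℝ)) ^ ((m : ℝ) / (m + 1)) = Y ^ m := by
      rw [hYm, ← Real.mul_rpow hX0.le (by positivity)]
      congr 1
      ring
    rw [mul_pow] at h2
    calc 1 / 2 * (1 / (2 * (Q : ℝ))) ^ m * (1 / (m : ℝ)) ^ ((m : ℝ) / (m + 1)) *
          X ^ ((m : ℝ) / (m + 1))
        = 1 / 2 * ((1 / (2 * (Q : ℝ))) ^ m * (X ^ ((m : ℝ) / (m + 1)) *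
          (1 / (m : ℝ)) ^ ((m : ℝ) / (m + 1)))) := by ring
      _ = 1 / 2 * ((1 / (2 * (Q : ℝ))) ^ m * Y ^ m) := by rw [h3]
      _ ≤ (A : ℝ) ^ m / 2 := by linarith

end Pool.Agent.TH867.NA
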