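import Pool.Agent.TH867.NA.Up

/-!
Tuples of pairwise coprime integers with sum zero counted by their radical: the upper bound for
logarithmic heights at most `(1 + log X) ^ (2 + η)` (helper867).
-/

set_option autoImplicit false

namespace Pool.Agent.TH867.NA

open Finset
open Pool.Agent.TH867.SQ (lr lr_nonneg)

/-- **the upper bound**: tuples with sum zero such that the radicals of all entries but one have a
product at most `Z` -/
theorem upper (m : ℕ) (ε : ℝ) (hε : 0 < ε) : ∃ η : ℝ, 0 < η ∧ ∃ C : ℝ, 0 < C ∧ ∀ X Z : ℝ, 1 ≤ X →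
    1 ≤ Z → Z ≤ X → ∀ F : Finset (Fin (m + 1) → ℤ), (∀ x ∈ F, (∀ i, x i ≠ 0) ∧ ∑ i, x i = 0 ∧
      (∀ i, Real.log |(x i : ℝ)| ≤ (1 + Real.log X) ^ (2 + η)) ∧
      ∃ j, ∑ i, lr (x i).natAbs - lr (x j).natAbs ≤ Real.log Z) →
    (F.card : ℝ) ≤ C * X ^ ε * Z := by
  classical
  obtain ⟨δ, hδ⟩ : ∃ δ : ℝ, δ = ε / (m + 1) := ⟨_, rfl⟩
  have hm1 : (0 : ℝ) < (m : ℝ) + 1 := by positivity
  have hm0 : (0 : ℝ) ≤ m := Nat.cast_nonneg m
  have hδ0 : 0 < δ := by rw [hδ]; positivity
  obtain ⟨η, hη, L1, hL1, hV⟩ := V_le δ hδ0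
  refine ⟨η, hη, (m + 1) * (2 * Real.exp (δ / 8 * L1)) ^ m, by positivity,
    fun X Z hX hZ hZX F hF => ?_⟩
  have hX0 : 0 < X := by linarith
  have hZ0 : 0 < Z := by linarith
  have hlX : 0 ≤ Real.log X := Real.log_nonneg hX
  obtain ⟨L, hL⟩ : ∃ L : ℝ, L = L1 + Real.log X := ⟨_, rfl⟩
  have hLL1 : L1 ≤ L := by rw [hL]; linarith
  have hLX : 1 + Real.log X ≤ L := by rw [hL]; linarith
  obtain ⟨N, hN⟩ : ∃ N : ℕ, N = ⌊Real.exp (L ^ (2 + η))⌋₊ := ⟨_, rfl⟩
  have hVL := hV L hLL1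
  rw [← hN] at hVL
  have hcov : F ⊆ (Finset.univ : Finset (Fin (m + 1))).biUnion fun j =>
      F.filter fun x => ∑ i, lr (x i).natAbs - lr (x j).natAbs ≤ Real.log Z := by
    intro x hx
    obtain ⟨-, -, -, j, hj⟩ := hF x hx
    rw [Finset.mem_biUnion]
    exact ⟨j, Finset.mem_univ _, Finset.mem_filter.2 ⟨hx, hj⟩⟩
  have hj : ∀ j : Fin (m + 1), (((F.filter fun x : Fin (m + 1) → ℤ =>
      ∑ i, lr (x i).natAbs - lr (x j).natAbs ≤ Real.log Z).card : ℕ) : ℝ) ≤
      (2 * Real.exp (δ / 8 * L1)) ^ m * (X ^ ε * Z) := by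
    intro j
    obtain ⟨G, hG⟩ : ∃ G, G = F.filter fun x : Fin (m + 1) → ℤ =>
      ∑ i, lr (x i).natAbs - lr (x j).natAbs ≤ Real.log Z := ⟨_, rfl⟩
    rw [← hG]
    have hmem : ∀ x ∈ G, x ∈ F ∧ ∑ i, lr (x i).natAbs - lr (x j).natAbs ≤ Real.log Z := by
      intro x hx
      rw [hG] at hx
      exact Finset.mem_filter.1 hx
    have hinj : Set.InjOn (fun (x : Fin (m + 1) → ℤ) (i : Fin m) => x (j.succAbove i))
        (G : Set (Fin (m + 1) → ℤ)) := by
      intro x hx y hy h
      have hx0 := (hF x (hmem x hx).1).2.1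
      have hy0 := (hF y (hmem y hy).1).2.1
      rw [Fin.sum_univ_succAbove _ j] at hx0 hy0
      have h1 : ∀ i : Fin m, x (j.succAbove i) = y (j.succAbove i) := fun i => congrFun h i
      have h2 : x j = y j := by
        rw [Finset.sum_congr rfl fun i _ => h1 i] at hx0
        linarith
      funext i
      rcases Fin.eq_self_or_eq_succAbove j i with h3 | ⟨k, h3⟩
      · rw [h3]; exact h2
      · rw [h3]; exact h1 k
    have h1 := tuple_count (m := m) (a := 1 + δ / 2) (T := Real.log Z) (by positivity) N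
      (G.image fun (x : Fin (m + 1) → ℤ) (i : Fin m) => x (j.succAbove i)) (fun y hy => by
        obtain ⟨x, hx, rfl⟩ := Finset.mem_image.1 hy
        obtain ⟨g1, g2⟩ := hmem x hx
        obtain ⟨g3, -, g4, -⟩ := hF x g1
        refine ⟨fun i => ⟨g3 _, ?_⟩, ?_⟩
        · have h5 := g4 (j.succAbove i)
          have h6 : (0 : ℝ) < |(x (j.succAbove i) : ℝ)| :=
            abs_pos.2 (by exact_mod_cast g3 (j.succAbove i))
          have h7 : |(x (j.succAbove i) : ℝ)| ≤ Real.exp (L ^ (2 + η)) := by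
            rw [← Real.log_le_iff_le_exp h6]
            refine h5.trans (Real.rpow_le_rpow (by linarith) hLX (by linarith))
          have h8 : (x (j.succAbove i)).natAbs ≤ N := by
            rw [hN]
            refine Nat.le_floor ?_
            rw [Nat.cast_natAbs, Int.cast_abs]
            exact h7
          show |x (j.succAbove i)| ≤ (N : ℤ)
          rw [Int.abs_eq_natAbs]
          exact_mod_cast h8
        · rw [Fin.sum_univ_succAbove _ j] at g2
          linarith)
    rw [Finset.card_image_of_injOn hinj] at h1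
    refine h1.trans ?_
    have h2 : (2 * ∑ s ∈ Finset.Icc 1 N, gg (1 + δ / 2) s) ^ m ≤
        (2 * Real.exp (δ / 8 * L)) ^ m := by
      refine pow_le_pow_left₀ ?_ (by linarith) m
      have : 0 ≤ ∑ s ∈ Finset.Icc 1 N, gg (1 + δ / 2) s :=
        Finset.sum_nonneg fun _ _ => gg_nonneg _ _
      linarith
    have h3 : Real.exp ((1 + δ / 2) * Real.log Z) ≤ X ^ (δ / 2) * Z := by
      have e1 : Real.exp ((1 + δ / 2) * Real.log Z) = Z ^ (δ / 2) * Z := by
        rw [Real.rpow_def_of_pos hZ0]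
        nth_rw 3 [← Real.exp_log hZ0]
        rw [← Real.exp_add]
        congr 1
        ring
      rw [e1]
      exact mul_le_mul_of_nonneg_right (Real.rpow_le_rpow hZ0.le hZX (by positivity)) hZ0.le
    have h4 : Real.exp (δ / 8 * L) = Real.exp (δ / 8 * L1) * X ^ (δ / 8) := by
      rw [Real.rpow_def_of_pos hX0, ← Real.exp_add, hL]
      congr 1
      ring
    have h5 : (2 * Real.exp (δ / 8 * L)) ^ m =
        (2 * Real.exp (δ / 8 * L1)) ^ m * X ^ (δ / 8 * m) := by
      rw [h4, ← mul_assoc, mul_pow, ← Real.rpow_natCast (X ^ (δ / 8)), ← Real.rpow_mul hX0.le]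
    have h6 : X ^ (δ / 2) * X ^ (δ / 8 * m) ≤ X ^ ε := by
      rw [← Real.rpow_add hX0]
      refine Real.rpow_le_rpow_of_exponent_le hX ?_
      have : ε = δ * (m + 1) := by
        rw [hδ, div_mul_cancel₀ _ hm1.ne']
      rw [this]
      nlinarith
    calc Real.exp ((1 + δ / 2) * Real.log Z) *
          (2 * ∑ s ∈ Finset.Icc 1 N, gg (1 + δ / 2) s) ^ m ≤
          (X ^ (δ / 2) * Z) * ((2 * Real.exp (δ / 8 * L1)) ^ m * X ^ (δ / 8 * m)) := by
            rw [← h5]
            exact mul_le_mul h3 h2 (by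
              have : 0 ≤ ∑ s ∈ Finset.Icc 1 N, gg (1 + δ / 2) s :=
                Finset.sum_nonneg fun _ _ => gg_nonneg _ _
              positivity) (by positivity)
      _ = (2 * Real.exp (δ / 8 * L1)) ^ m * (X ^ (δ / 2) * X ^ (δ / 8 * m) * Z) := by ring
      _ ≤ (2 * Real.exp (δ / 8 * L1)) ^ m * (X ^ ε * Z) := by
          refine mul_le_mul_of_nonneg_left ?_ (by positivity)
          exact mul_le_mul_of_nonneg_right h6 hZ0.le
  calc (F.card : ℝ) ≤ ∑ j : Fin (m + 1), (((F.filter fun x : Fin (m + 1) → ℤ =>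
      ∑ i, lr (x i).natAbs - lr (x j).natAbs ≤ Real.log Z).card : ℕ) : ℝ) := by
        exact_mod_cast (Finset.card_le_card hcov).trans Finset.card_biUnion_le
    _ ≤ ∑ _j : Fin (m + 1), (2 * Real.exp (δ / 8 * L1)) ^ m * (X ^ ε * Z) :=
        Finset.sum_le_sum fun j _ => hj j
    _ = (m + 1) * (2 * Real.exp (δ / 8 * L1)) ^ m * X ^ ε * Z := by
        rw [Finset.sum_const, Finset.card_univ, Fintype.card_fin, nsmul_eq_mul]
        push_cast
        ring

/-- the logarithm of the radical of a product of pairwise coprime integers -/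
theorem lr_prod {ι : Type} [DecidableEq ι] (s : Finset ι) (f : ι → ℕ) (h0 : ∀ i ∈ s, f i ≠ 0)
    (hc : ∀ i ∈ s, ∀ j ∈ s, i ≠ j → Nat.Coprime (f i) (f j)) :
    lr (∏ i ∈ s, f i) = ∑ i ∈ s, lr (f i) := by
  induction s using Finset.induction_on with
  | empty => simp [lr]
  | insert i s hi ih =>
    rw [prod_insert hi, sum_insert hi]
    have hco : Nat.Coprime (f i) (∏ j ∈ s, f j) := by
      refine Nat.Coprime.prod_right fun j hj => ?_
      refine hc i (mem_insert_self _ _) j (mem_insert_of_mem hj) ?_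
      rintro rfl
      exact hi hj
    rw [← ih (fun j hj => h0 j (mem_insert_of_mem hj))
      (fun j hj k hk => hc j (mem_insert_of_mem hj) k (mem_insert_of_mem hk))]
    unfold lr
    rw [hco.primeFactors_mul, Finset.sum_union hco.disjoint_primeFactors]

/-- the entry with the largest radical -/
theorem exists_large {m : ℕ} (f : Fin (m + 1) → ℝ) :
    ∃ j, ∑ i, f i - f j ≤ (m : ℝ) / (m + 1) * ∑ i, f i := by
  by_contra hcon
  push Not at hcon
  have h1 : ∑ _j : Fin (m + 1), (m : ℝ) / (m + 1) * ∑ i, f i < ∑ j, (∑ i, f i - f j) :=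
    Finset.sum_lt_sum_of_nonempty Finset.univ_nonempty fun j _ => hcon j
  rw [Finset.sum_const, Finset.card_univ, Fintype.card_fin, nsmul_eq_mul, Finset.sum_sub_distrib,
    Finset.sum_const, Finset.card_univ, Fintype.card_fin, nsmul_eq_mul] at h1
  push_cast at h1
  have hm : (0 : ℝ) < (m : ℝ) + 1 := by positivity
  have h2 : ((m : ℝ) + 1) * ((m : ℝ) / (m + 1) * ∑ i, f i) = m * ∑ i, f i := by
    field_simp
  rw [h2] at h1
  linarith

/-- the radical of the product -/
theorem log_rad {n : ℕ} (x : Fin n → ℤ) (h0 : ∀ i, x i ≠ 0)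
    (hc : ∀ i j, i ≠ j → IsCoprime (x i) (x j)) :
    Real.log ((∏ p ∈ (∏ i, x i).natAbs.primeFactors, p : ℕ) : ℝ) = ∑ i, lr (x i).natAbs := by
  have h1 : (∏ i, x i).natAbs = ∏ i, (x i).natAbs := map_prod Int.natAbsHom _ _
  rw [h1, ← lr_prod Finset.univ (fun i => (x i).natAbs) (fun i _ => Int.natAbs_ne_zero.2 (h0 i))
    (fun i _ j _ hij => Int.isCoprime_iff_gcd_eq_one.1 (hc i j hij))]
  unfold lr
  push_cast
  rw [Real.log_prod]
  intro p hp
  exact_mod_cast (Nat.prime_of_mem_primeFactors hp).pos.ne'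

end Pool.Agent.TH867.NA
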