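import Pool.Agent.TH867.SB.SmallGen
import Pool.Agent.TH867.SQ.Pairs

/-!
Tuples of integers with a small product of radicals, of logarithmic height at most
`(log X) ^ (2 + η)` (helper867).
-/

set_option autoImplicit false

namespace Pool.Agent.TH867.NA

open Finset
open Pool.Agent.TH867.SR
open Pool.Agent.TH867.SQ (lr lr_nonneg)

/-- the function `s ↦ rad(s) ^ (-a)` -/
noncomputable def gg (a : ℝ) (s : ℕ) : ℝ := ∏ p ∈ s.primeFactors, (p : ℝ) ^ (-a)

theorem gg_nonneg (a : ℝ) (s : ℕ) : 0 ≤ gg a s := Finset.prod_nonneg fun p _ => by positivity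

theorem gg_eq (a : ℝ) (s : ℕ) : gg a s = Real.exp (-a * lr s) := by
  unfold gg lr
  rw [Finset.mul_sum, Real.exp_sum]
  refine Finset.prod_congr rfl fun p hp => ?_
  have hp0 : (0 : ℝ) < p := by exact_mod_cast (Nat.prime_of_mem_primeFactors hp).pos
  rw [Real.rpow_def_of_pos hp0]
  congr 1
  ring

/-- the sum over the integers of logarithm at most `L ^ (2 + η)` -/
theorem V_le (ε : ℝ) (hε : 0 < ε) : ∃ η : ℝ, 0 < η ∧ ∃ L1 : ℝ, 1 ≤ L1 ∧ ∀ L : ℝ, L1 ≤ L →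
    ∑ s ∈ Finset.Icc 1 ⌊Real.exp (L ^ (2 + η))⌋₊, gg (1 + ε / 2) s ≤ Real.exp (ε / 8 * L) := by
  classical
  obtain ⟨θ, hθ⟩ : ∃ θ : ℝ, θ = ε / 2 := ⟨_, rfl⟩
  have hθ0 : 0 < θ := by rw [hθ]; positivity
  obtain ⟨β, hβ⟩ : ∃ β : ℝ, β = 1 / (1 + θ / 2) := ⟨_, rfl⟩
  have hβ0 : 0 < β := by rw [hβ]; positivity
  have hβ1 : β ≤ 1 := by
    rw [hβ, div_le_one (by positivity)]; linarith
  have haβ : 1 < (1 + θ) * β := by
    rw [hβ, mul_one_div, lt_div_iff₀ (by positivity)]; linarith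
  obtain ⟨η, hη⟩ : ∃ η : ℝ, η = θ / 4 := ⟨_, rfl⟩
  have hη0 : 0 < η := by rw [hη]; positivity
  have hγ : (1 + η) * β < 1 := by
    rw [hβ, mul_one_div, div_lt_one (by positivity), hη]; linarith
  obtain ⟨Z, hZ⟩ : ∃ Z : ℝ, Z = ∑' n : ℕ, ((n : ℝ) ^ ((1 + θ) * β))⁻¹ := ⟨_, rfl⟩
  have hZ0 : 0 ≤ Z := by rw [hZ]; exact tsum_nonneg fun n => by positivity
  obtain ⟨W, hW⟩ : ∃ W : ℝ, W = (32 / ε) ^ β * Z / β * (16 / ε) := ⟨_, rfl⟩
  have hW0 : 0 ≤ W := by rw [hW]; positivity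
  obtain ⟨γ, hγd⟩ : ∃ γ : ℝ, γ = 1 - (1 + η) * β := ⟨_, rfl⟩
  have hγ0 : 0 < γ := by rw [hγd]; linarith
  refine ⟨η, hη0, max 1 (W ^ (1 / γ)), le_max_left _ _, fun L hL => ?_⟩
  have hL1 : 1 ≤ L := (le_max_left _ _).trans hL
  have hL0 : 0 < L := by linarith
  have hWL : W ≤ L ^ γ := by
    have h1 : (W ^ (1 / γ)) ^ γ ≤ L ^ γ :=
      Real.rpow_le_rpow (by positivity) ((le_max_right _ _).trans hL) hγ0.le
    rwa [← Real.rpow_mul hW0, one_div_mul_cancel hγ0.ne', Real.rpow_one] at h1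
  obtain ⟨σ, hσ⟩ : ∃ σ : ℝ, σ = ε / 16 * L ^ (-(1 + η)) := ⟨_, rfl⟩
  have hσ0 : 0 < σ := by rw [hσ]; positivity
  obtain ⟨N, hN⟩ : ∃ N : ℕ, N = ⌊Real.exp (L ^ (2 + η))⌋₊ := ⟨_, rfl⟩
  have hN1 : 1 ≤ N := by
    rw [hN]
    refine Nat.le_floor ?_
    rw [Nat.cast_one, Real.one_le_exp_iff]
    positivity
  have hlogN : Real.log N ≤ L ^ (2 + η) := by
    rw [Real.log_le_iff_le_exp (by exact_mod_cast hN1), hN]
    exact Nat.floor_le (Real.exp_pos _).le
  have hsum := rankin_sum hσ0 hβ0 hβ1 haβ N hN1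
  rw [← hZ] at hsum
  have hexp : σ * Real.log N + (2 / σ) ^ β * Z / β ≤ ε / 8 * L := by
    have h1 : σ * Real.log N ≤ ε / 16 * L := by
      have h2 : σ * Real.log N ≤ σ * L ^ (2 + η) := mul_le_mul_of_nonneg_left hlogN hσ0.le
      have h3 : σ * L ^ (2 + η) = ε / 16 * L := by
        rw [hσ, mul_assoc, ← Real.rpow_add hL0]
        have : -(1 + η) + (2 + η) = 1 := by ring
        rw [this, Real.rpow_one]
      linarith
    have h4 : (2 / σ) ^ β * Z / β ≤ ε / 16 * L := by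
      have e1 : 2 / σ = 32 / ε * L ^ (1 + η) := by
        rw [hσ, Real.rpow_neg hL0.le]
        field_simp
        norm_num
      rw [e1, Real.mul_rpow (by positivity) (by positivity), ← Real.rpow_mul hL0.le]
      have e2 : L = L ^ ((1 + η) * β) * L ^ γ := by
        rw [← Real.rpow_add hL0, hγd]
        have : (1 + η) * β + (1 - (1 + η) * β) = 1 := by ring
        rw [this, Real.rpow_one]
      have e3 : (32 / ε) ^ β * L ^ ((1 + η) * β) * Z / β =
          ε / 16 * (L ^ ((1 + η) * β) * W) := by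
        rw [hW]
        field_simp
      rw [e3]
      conv_rhs => rw [e2]
      refine mul_le_mul_of_nonneg_left ?_ (by positivity)
      exact mul_le_mul_of_nonneg_left hWL (by positivity)
    linarith
  rw [← hN]
  have h5 : ∑ s ∈ Finset.Icc 1 N, gg (1 + ε / 2) s ≤
      Real.exp (σ * Real.log N + (2 / σ) ^ β * Z / β) := by
    refine le_trans (le_of_eq ?_) hsum
    rw [hθ]
    rfl
  exact h5.trans (Real.exp_le_exp.2 hexp)

/-- the sum over the non-zero integers up to `N` -/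
theorem sum_int_le (a : ℝ) (N : ℕ) :
    ∑ s ∈ (Finset.Icc (-(N : ℤ)) N).erase 0, gg a s.natAbs ≤ 2 * ∑ s ∈ Finset.Icc 1 N, gg a s := by
  classical
  have h1 : ∑ s ∈ (Finset.Icc (-(N : ℤ)) N).erase 0, gg a s.natAbs =
      ∑ x ∈ ((Finset.Icc (-(N : ℤ)) N).erase 0).image fun s : ℤ => (s.natAbs, decide (0 < s)),
        gg a x.1 := by
    rw [Finset.sum_image]
    intro s hs t ht h
    simp only [Prod.mk.injEq, decide_eq_decide] at h
    obtain ⟨h1, h2⟩ := h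
    have hs0 := (Finset.mem_erase.1 hs).1
    have ht0 := (Finset.mem_erase.1 ht).1
    by_cases h3 : 0 < s
    · have := h2.1 h3
      omega
    · have : ¬ 0 < t := fun h4 => h3 (h2.2 h4)
      omega
  rw [h1]
  have h2 : (((Finset.Icc (-(N : ℤ)) N).erase 0).image fun s : ℤ => (s.natAbs, decide (0 < s))) ⊆
      (Finset.Icc 1 N) ×ˢ (Finset.univ : Finset Bool) := by
    intro x hx
    obtain ⟨s, hs, rfl⟩ := Finset.mem_image.1 hx
    obtain ⟨hs0, hs1⟩ := Finset.mem_erase.1 hs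
    rw [Finset.mem_Icc] at hs1
    rw [Finset.mem_product, Finset.mem_Icc]
    refine ⟨⟨?_, ?_⟩, Finset.mem_univ _⟩
    · have := Int.natAbs_pos.2 hs0
      exact this
    · show s.natAbs ≤ N
      omega
  refine (Finset.sum_le_sum_of_subset_of_nonneg h2 fun x _ _ => gg_nonneg a _).trans ?_
  rw [Finset.sum_product]
  simp only [Finset.sum_const, Finset.card_univ, Fintype.card_bool, nsmul_eq_mul]
  rw [← Finset.mul_sum]
  norm_num

/-- tuples with a small product of radicals -/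
theorem tuple_count {m : ℕ} {a T : ℝ} (ha : 0 ≤ a) (N : ℕ) (F : Finset (Fin m → ℤ))
    (hF : ∀ y ∈ F, (∀ i, y i ≠ 0 ∧ |y i| ≤ N) ∧ ∑ i, lr (y i).natAbs ≤ T) :
    (F.card : ℝ) ≤ Real.exp (a * T) * (2 * ∑ s ∈ Finset.Icc 1 N, gg a s) ^ m := by
  classical
  have h1 : (F.card : ℝ) ≤ ∑ y ∈ F, Real.exp (a * T) * ∏ i, gg a (y i).natAbs := by
    rw [Finset.card_eq_sum_ones, Nat.cast_sum]
    refine Finset.sum_le_sum fun y hy => ?_
    obtain ⟨-, h3⟩ := hF y hy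
    simp only [gg_eq]
    rw [← Real.exp_sum, ← Real.exp_add, Nat.cast_one, Real.one_le_exp_iff, ← Finset.mul_sum]
    nlinarith
  have h2 : F ⊆ Fintype.piFinset fun _ : Fin m => (Finset.Icc (-(N : ℤ)) N).erase 0 := by
    intro y hy
    rw [Fintype.mem_piFinset]
    intro i
    obtain ⟨h3, h4⟩ := (hF y hy).1 i
    rw [Finset.mem_erase, Finset.mem_Icc]
    exact ⟨h3, abs_le.1 h4⟩
  refine h1.trans ?_
  rw [← Finset.mul_sum]
  refine mul_le_mul_of_nonneg_left ?_ (Real.exp_pos _).le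
  refine (Finset.sum_le_sum_of_subset_of_nonneg h2 fun y _ _ =>
    Finset.prod_nonneg fun i _ => gg_nonneg a _).trans ?_
  rw [← Finset.prod_univ_sum (fun _ : Fin m => (Finset.Icc (-(N : ℤ)) N).erase 0)
    (fun _ s => gg a s.natAbs), Finset.prod_const, Finset.card_univ, Fintype.card_fin]
  exact pow_le_pow_left₀ (Finset.sum_nonneg fun _ _ => gg_nonneg a _) (sum_int_le a N) m

end Pool.Agent.TH867.NA
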